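import Pool.Agent.H752.CE.PCompact

/-!
# MP_ce8751_gt: maps into a telescope of `p`-local finite groups need not factor

Spaces are simplicial sets; all targets that occur are Kan complexes.

For every prime `p` and every nontrivial finite `p`-group `X` (so that `BX` is the classifying space
of a `p`-compact group) there is a sequence of finite `p`-groups `P 0 → P 1 → ...` (so that each
`B(P m)` is `p`-complete, and is the classifying space of the `p`-local finite group of `P m`) such
that the `p`-completion of the homotopy colimit of the `B(P m)` is `BX`, but every composite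
`BC_p → B(P m) → BX` is null-homotopic.  Hence no essential map `BC_p → BX` factors up to homotopy
through any `B(P m)`, and neither does the identity of `BX`.
-/

set_option autoImplicit false

namespace Pool.Agent.Results.MP_ce8751_gt.TelescopeNoFactor

open CategoryTheory Simplicial Pool.Agent.H752.CE

/-- the cyclic group of order `p`, written multiplicatively -/
abbrev Cp (p : ℕ) : Type := Multiplicative (ZMod p)

theorem result (p : ℕ) [Fact p.Prime] (X : Type) [Group X] [Finite X] [Nontrivial X]
    (hX : IsPGroup p X) :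
    ∃ (P : ℕ → Type) (_ : ∀ m, Group (P m)) (j : ∀ m, P m →* P (m + 1)) (φ : tel j ⟶ BB X),
      -- the spaces `B(P m)` are classifying spaces of `p`-local finite groups
      (∀ m, Finite (P m) ∧ IsPGroup p (P m) ∧ PComplete p (BB (P m))) ∧
      -- the maps are cofibrations: the colimit `tel j` is the homotopy colimit
      (∀ m, Mono (BBmap (j m))) ∧
      -- `BX` is the classifying space of a `p`-compact group
      IsBPCompact p (BB X) ∧
      -- `φ` exhibits `BX` as the `p`-completion of the homotopy colimit
      ModPEquiv p φ ∧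
      -- every map from `BC_p` to `BX` through some `B(P m)` is null-homotopic
      (∀ (m : ℕ) (g : BB (Cp p) ⟶ BB (P m)), NullHtpc (g ≫ telι j m ≫ φ)) ∧
      -- no map `BG → BX` which is nontrivial on an element of order `p` factors up to homotopy
      (∀ (G : Type) [Group G] (ρ : G →* X), (∃ w : G, w ^ p = 1 ∧ ρ w ≠ 1) →
        ∀ (m : ℕ) (g : BB G ⟶ BB (P m)), ¬ Htpc (g ≫ telι j m ≫ φ) (BBmap ρ)) ∧
      -- in particular for the finite group `C_p`, for which `BC_p` is already `p`-complete,
      -- there is a map `BC_p → BX` which factors through no `B(P m)`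
      PComplete p (BB (Cp p)) ∧
      ∃ g : BB (Cp p) ⟶ BB X, ∀ (m : ℕ) (g' : BB (Cp p) ⟶ BB (P m)),
        ¬ Htpc (g' ≫ telι j m ≫ φ) g := by
  obtain ⟨P, i1, j, φ, h1, h2, h3, h4, h5, h6⟩ := main p X hX
  have hc : Nat.card (Cp p) = p := by
    rw [Nat.card_congr Multiplicative.toAdd, Nat.card_zmod]
  have hCp : IsPGroup p (Cp p) := IsPGroup.of_card (n := 1) (by rw [hc, pow_one])
  -- an element of order `p`
  obtain ⟨x, hx⟩ : ∃ x : X, orderOf x = p := by
    obtain ⟨k, hk⟩ := hX.exists_card_eq
    refine exists_prime_orderOf_dvd_card' p ?_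
    rw [hk]
    refine dvd_pow_self p ?_
    rintro rfl
    rw [pow_zero, Nat.card_eq_one_iff_unique] at hk
    exact not_subsingleton _ hk.1
  have hZ : Nat.card (Subgroup.zpowers x) = p := by rw [Nat.card_zpowers, hx]
  let e : Cp p ≃* Subgroup.zpowers x := mulEquivOfPrimeCardEq (p := p) hc hZ
  let ρ : Cp p →* X := (Subgroup.zpowers x).subtype.comp e.toMonoidHom
  refine ⟨P, i1, j, φ, h1, h2, isBPCompact_BB p X hX, h4, h5, h6, pComplete_BB p (Cp p) hCp,
    BBmap ρ, h6 (Cp p) ρ ⟨e.symm ⟨x, Subgroup.mem_zpowers x⟩, ?_, ?_⟩⟩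
  · rw [← map_pow]
    have : (⟨x, Subgroup.mem_zpowers x⟩ : Subgroup.zpowers x) ^ p = 1 :=
      Subtype.ext (by rw [SubmonoidClass.mk_pow]; exact hx ▸ pow_orderOf_eq_one x)
    rw [this, map_one]
  · show ((e (e.symm ⟨x, Subgroup.mem_zpowers x⟩) : Subgroup.zpowers x) : X) ≠ 1
    rw [e.apply_symm_apply]
    rintro h
    have h' : x = 1 := h
    rw [h', orderOf_one] at hx
    exact (Fact.out : p.Prime).one_lt.ne hx

end Pool.Agent.Results.MP_ce8751_gt.TelescopeNoFactor
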